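import Mathlib
import Pool.Agent.Run7.h653.Bridge

set_option autoImplicit false

/-!
# MP_bdcdea_lc: `2 ^ λ = λ⁺` and `□(λ⁺)` give a `λ⁺`-Souslin tree, for every uncountable `λ`

In particular (`λ = ℵ₁`), if `2 ^ ℵ₁ = ℵ₂` and `□(ℵ₂)` holds then there is an `ℵ₂`-Souslin tree, so
the answer to Q1 is negative.

Outline of the proof. Let `κ = λ⁺` and let `C` be a `□(κ)`-sequence.

* `Pool.Agent.Run7.h653.Diamond`: Shelah's theorem: `2 ^ λ = λ⁺` implies diamond on every
  stationary set of points of cofinality different from `cf λ`.
* `Pool.Agent.Run7.h653.Dichotomy`: for every `i < λ`, insert into each gap of `C α` one element,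
  found from the `i`-th element of the gap by means of a diamond sequence. If one of the `λ` many
  coherent sequences obtained hits all unbounded subsets of `κ`, fine. Otherwise guess all
  the counterexamples `A i` simultaneously on an unbounded set `G`. Then, for every `i`, only
  finitely many gaps of `C α` have their `i`-th element in `G`. As `C` has no thread, almost all
  `α` have cofinally many gaps which contain an element of `G`. So for stationarily many `α` of a
  good cofinality there is a cofinal set `B α` of gaps of `C α` which is determined locally and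
  has size `< λ`; the order type of `B α` is `< λ`, so it is constant on a stationary set `S`, and
  then no point of `S` is an accumulation point of `C α` for another `α` in `S`. It is now easy to
  modify `C` such that no `C α` accumulates at a point of `S`.
* `Pool.Agent.Run7.h653.Tree` etc.: in both cases we construct a `κ`-Souslin tree.
-/

namespace Pool.Agent.Results.MP_bdcdea_lc.SquareGivesSouslin

open Cardinal Pool.Agent.Run7.h653

/-- For every uncountable cardinal `λ`, if `2 ^ λ = λ⁺` and `□(λ⁺)` holds, then there is a
`λ⁺`-Souslin tree. -/
theorem result (lam : Cardinal.{0}) (hlam : ℵ₀ < lam)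
    (hch : (2 : Cardinal.{0}) ^ lam = Order.succ lam) (hsq : Square (Order.succ lam)) :
    ∃ (T : Type) (_ : PartialOrder T), IsSouslinTree (Order.succ lam) T :=
  main lam hlam hch hsq

/-- The case `λ = ℵ₁`, which is the question Q1. -/
theorem aleph_two (hch : (2 : Cardinal.{0}) ^ (ℵ_ 1 : Cardinal.{0}) = ℵ_ 2)
    (hsq : Square (ℵ_ 2)) : ∃ (T : Type) (_ : PartialOrder T), IsSouslinTree (ℵ_ 2) T := by
  have h : (ℵ_ 2 : Cardinal.{0}) = Order.succ (ℵ_ 1) := by
    rw [Cardinal.succ_aleph, one_add_one_eq_two]
  rw [h] at hch hsq ⊢
  exact result _ Cardinal.aleph0_lt_aleph_one hch hsq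

end Pool.Agent.Results.MP_bdcdea_lc.SquareGivesSouslin
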